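import Mathlib

set_option autoImplicit false

namespace Pool.Agent.Results.MP_af8792_co.Unbounded

/-- A cell of the `m × n` grid. -/
abbrev Cell (m n : ℕ) := Fin m × Fin n

/-- A cell is occupied if it is a 1-edge or one of the two cells of a 2-edge. -/
def Occupied {m n : ℕ} (E1 : Finset (Cell m n)) (E2 : Finset (Cell m n × Cell m n))
    (x : Cell m n) : Prop :=
  x ∈ E1 ∨ ∃ e ∈ E2, x = e.1 ∨ x = e.2

/-- A configuration: the two cells of a 2-edge differ in row and in column, and no cell is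
occupied by two different edges. -/
def IsConfig {m n : ℕ} (E1 : Finset (Cell m n)) (E2 : Finset (Cell m n × Cell m n)) : Prop :=
  (∀ e ∈ E2, e.1.1 ≠ e.2.1 ∧ e.1.2 ≠ e.2.2) ∧
  (∀ x ∈ E1, ∀ e ∈ E2, x ≠ e.1 ∧ x ≠ e.2) ∧
  (∀ e ∈ E2, ∀ f ∈ E2, e ≠ f → e.1 ≠ f.1 ∧ e.1 ≠ f.2 ∧ e.2 ≠ f.1 ∧ e.2 ≠ f.2)

/-- The configuration contains a generalized C4-cycle (conditions 1, 2, 3 of the problem). -/
def HasGenC4 {m n : ℕ} (E1 : Finset (Cell m n)) (E2 : Finset (Cell m n × Cell m n)) : Prop :=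
  (∃ (i k : Fin m) (j l : Fin n), i ≠ k ∧ j ≠ l ∧
    (i, j) ∈ E1 ∧ (i, l) ∈ E1 ∧ (k, j) ∈ E1 ∧ (k, l) ∈ E1) ∨
  (∃ (i k : Fin m) (j l : Fin n), ((i, j), (k, l)) ∈ E2 ∧
    Occupied E1 E2 (i, l) ∧ Occupied E1 E2 (k, j)) ∨
  (∃ (i p k : Fin m) (j q l : Fin n), ((i, j), (p, q)) ∈ E2 ∧
    [(k, l), (k, j), (k, q), (i, l), (p, l)].Nodup ∧
    Occupied E1 E2 (k, l) ∧ Occupied E1 E2 (k, j) ∧ Occupied E1 E2 (k, q) ∧
    Occupied E1 E2 (i, l) ∧ Occupied E1 E2 (p, l))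

/-- The double Zarankiewicz number. -/
noncomputable def z2 (m n : ℕ) : ℕ :=
  sSup {N : ℕ | ∃ (E1 : Finset (Cell m n)) (E2 : Finset (Cell m n × Cell m n)),
    IsConfig E1 E2 ∧ ¬ HasGenC4 E1 E2 ∧ N = E1.card + E2.card}

lemma bdd (m n : ℕ) : BddAbove {N : ℕ | ∃ (E1 : Finset (Cell m n))
    (E2 : Finset (Cell m n × Cell m n)),
    IsConfig E1 E2 ∧ ¬ HasGenC4 E1 E2 ∧ N = E1.card + E2.card} := by
  refine ⟨Fintype.card (Cell m n) + Fintype.card (Cell m n × Cell m n), ?_⟩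
  rintro N ⟨E1, E2, -, -, rfl⟩
  exact add_le_add (Finset.card_le_univ _) (Finset.card_le_univ _)

lemma lower (a : ℕ) : a * a ≤ z2 (a + a) (a + a) := by
  refine le_csSup (bdd _ _) ?_
  let g : Fin a × Fin a → Cell (a + a) (a + a) × Cell (a + a) (a + a) := fun u =>
    ((Fin.castAdd a u.1, Fin.castAdd a u.2), (Fin.natAdd a u.1, Fin.natAdd a u.2))
  have hg : Function.Injective g := by
    intro u v h
    simp only [g, Prod.mk.injEq, Fin.ext_iff, Fin.val_castAdd] at h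
    exact Prod.ext (Fin.ext h.1.1) (Fin.ext h.1.2)
  have hocc : ∀ x, Occupied ∅ (Finset.univ.image g) x →
      (x.1.val < a ∧ x.2.val < a) ∨ (a ≤ x.1.val ∧ a ≤ x.2.val) := by
    rintro x (h | ⟨e, he, h⟩)
    · simp at h
    · obtain ⟨u, -, rfl⟩ := Finset.mem_image.1 he
      rcases h with rfl | rfl <;> simp [g]
  have hmem : ∀ e ∈ Finset.univ.image g,
      e.1.1.val < a ∧ e.1.2.val < a ∧ e.2.1.val = a + e.1.1.val ∧ e.2.2.val = a + e.1.2.val := by
    intro e he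
    obtain ⟨u, -, rfl⟩ := Finset.mem_image.1 he
    simp [g, add_comm]
  refine ⟨∅, Finset.univ.image g, ⟨?_, by simp, ?_⟩, ?_, ?_⟩
  · intro e he
    have := hmem e he
    simp only [ne_eq, Fin.ext_iff]
    omega
  · intro e he f hf hef
    have h1 := hmem e he
    have h2 := hmem f hf
    simp only [ne_eq, Prod.ext_iff, Fin.ext_iff] at hef ⊢
    omega
  · rintro (⟨i, k, j, l, -, -, h, -⟩ | ⟨i, k, j, l, h, h1, -⟩ |
      ⟨i, p, k, j, q, l, h, -, -, h1, h2, -⟩)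
    · simp at h
    · have h3 := hmem _ h
      have h4 := hocc _ h1
      simp only at h3 h4
      omega
    · have h3 := hmem _ h
      have h4 := hocc _ h1
      have h5 := hocc _ h2
      simp only at h3 h4 h5
      omega
  · rw [Finset.card_image_of_injective _ hg]; simp

theorem result :
    ¬ ∃ C : ℝ, ∀ m n : ℕ, 2 ≤ m → 2 ≤ n →
      (z2 m n : ℝ) ≤ C * (m * Real.sqrt n + n) := by
  rintro ⟨C, hC⟩
  obtain ⟨b, hb⟩ := exists_nat_gt (max (6 * C) 1)
  have hb1 : (1 : ℝ) < b := (le_max_right _ _).trans_lt hb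
  have hb2 : 6 * C < b := (le_max_left _ _).trans_lt hb
  have hb3 : 1 < b := by exact_mod_cast hb1
  have h1 := hC (b * b + b * b) (b * b + b * b) (by nlinarith) (by nlinarith)
  have h2 : ((b * b * (b * b) : ℕ) : ℝ) ≤ (z2 (b * b + b * b) (b * b + b * b) : ℝ) := by
    exact_mod_cast lower (b * b)
  have h3 : Real.sqrt ((b * b + b * b : ℕ) : ℝ) ≤ 2 * b := by
    rw [Real.sqrt_le_left (by positivity)]
    push_cast
    nlinarith
  have h4 := Real.sqrt_nonneg ((b * b + b * b : ℕ) : ℝ)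
  generalize Real.sqrt ((b * b + b * b : ℕ) : ℝ) = s at h1 h3 h4
  push_cast at h1 h2
  have h5 : (0 : ℝ) < b * b := by positivity
  have h6 : (b : ℝ) * b ≤ C * (2 * s + 2) := by
    refine le_of_mul_le_mul_left ?_ h5
    nlinarith
  have h7 : 2 * s + 2 ≤ 6 * b := by linarith
  rcases le_or_gt C 0 with h | h
  · nlinarith
  · nlinarith

end Pool.Agent.Results.MP_af8792_co.Unbounded
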